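import Pool.Agent.H65.EN.Targets

/-!
# Row MX of enx_modules
-/

set_option autoImplicit false

open Finset MeasureTheory

namespace Pool.Agent.H97.EN

open Pool.Agent.H24.CL Pool.Agent.H24.LV Pool.Agent.H31.LV Pool.Agent.H50.LV Pool.Agent.H65.EN

/-- The exponent lies below the critical one. -/
theorem mx_exp (k : ℕ) (hk : 3 ≤ k) : (k : ℝ) ^ 2 / 2 + 1 < (KN k : ℝ) := by
  have h2 : 2 * KN k = k * (k + 1) := by
    have : 2 ∣ k * (k + 1) := (Nat.even_mul_succ_self k).two_dvd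
    unfold KN
    exact Nat.mul_div_cancel' this
  have h3 : (2 : ℝ) * (KN k : ℝ) = (k : ℝ) * ((k : ℝ) + 1) := by exact_mod_cast h2
  have h4 : (3 : ℝ) ≤ (k : ℝ) := by exact_mod_cast hk
  nlinarith

/-- The covering by the normal and the abnormal denominators. -/
theorem mx_cover (k N s₀ : ℕ) (R M' Y Y' : ℝ) (hY' : 0 ≤ Y') (h : Y' ^ s₀ = Y) :
    WS k N R M' ⊆ WQ k N R M' {q | (tau q : ℝ) ^ s₀ ≤ Y} ∪ WQ k N R M' {q | Y' < (tau q : ℝ)} := by
  rintro w ⟨q, f, η, τ, ξ, hq, hqR, h1, h2, h3, h4, h5, h6, h7⟩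
  by_cases hc : Y' < (tau q : ℝ)
  · right
    exact ⟨q, f, η, τ, ξ, hc, hq, hqR, h1, h2, h3, h4, h5, h6, h7⟩
  · left
    refine ⟨q, f, η, τ, ξ, ?_, hq, hqR, h1, h2, h3, h4, h5, h6, h7⟩
    show (tau q : ℝ) ^ s₀ ≤ Y
    rw [← h]
    exact pow_le_pow_left₀ (by positivity) (not_lt.mp hc) s₀

theorem pf_MX (h1 : T_ABN) (h2 : T_MEX) : T_MX := by
  intro k hk CR hCR A
  obtain ⟨s₀, hs₀, h2'⟩ := h2 k hk
  have hexp := mx_exp k hk
  set K : ℝ := (KN k : ℝ) with hK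
  set s : ℝ := ((k : ℝ) ^ 2 / 2 + 1 + K) / 2 with hs
  have hs1 : (k : ℝ) ^ 2 / 2 + 1 < s := by rw [hs]; linarith
  have hsK : s < K := by rw [hs]; linarith
  have hs0 : 0 ≤ s := by
    have : (0 : ℝ) ≤ (k : ℝ) ^ 2 := by positivity
    linarith
  obtain ⟨C₁, hC₁, h2''⟩ := h2' s hs1
  obtain ⟨C₂, B, hC₂, h1'⟩ := h1 k hk (2 * s₀ * A)
  have hq1 : (0 : ℝ) ≤ C₂ * (1 + CR) ^ B := by positivity
  have hq2 : (0 : ℝ) ≤ (C₁ * (CR + 1)) ^ 2 := by positivity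
  refine ⟨K - s, 8 + (C₁ * (CR + 1)) ^ 2 + C₁ + C₂ * (1 + CR) ^ B, 2 * B, by linarith,
    by linarith, ?_⟩
  intro N M' hN hM' hNM
  set C : ℝ := 8 + (C₁ * (CR + 1)) ^ 2 + C₁ + C₂ * (1 + CR) ^ B with hC
  have hN1 : (1 : ℝ) ≤ (N : ℝ) := by exact_mod_cast hN
  have hN0 : (0 : ℝ) < (N : ℝ) := by linarith
  have hM0 : (0 : ℝ) < M' := by linarith
  have hlog : 0 ≤ Real.log N := Real.log_nonneg hN1
  set L : ℝ := 1 + Real.log N with hL
  have hL1 : 1 ≤ L := by linarith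
  have hL2 : 1 ≤ L ^ 2 := one_le_pow₀ hL1
  set R : ℝ := (N : ℝ) ^ CR with hR
  have hR1 : 1 ≤ R := Real.one_le_rpow hN1 (by linarith)
  have hR0 : 0 < R := by linarith
  have hlogR : Real.log R = CR * Real.log N := Real.log_rpow hN0 CR
  set Z : ℝ := (N : ℝ) / M' with hZ
  have hZM : Z * M' = N := by rw [hZ]; field_simp
  have hZC : C * L ^ 2 ≤ Z := by
    rw [hZ, le_div_iff₀ hM0]
    exact hNM
  have hC8 : 8 ≤ C := by linarith
  have hCC : (C₁ * (CR + 1)) ^ 2 ≤ C := by linarith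
  have hZ8 : 8 ≤ Z := by nlinarith
  have hZ1 : 1 ≤ Z := by linarith
  have hZ0 : 0 ≤ Z := by linarith
  have hMN : M' ≤ N := by
    rw [← hZM]
    nlinarith
  set Y : ℝ := Real.sqrt Z with hY
  have hYY : Y * Y = Z := Real.mul_self_sqrt hZ0
  have hY1 : 1 ≤ Y := by
    rw [hY]
    exact Real.one_le_sqrt.mpr hZ1
  have hY0 : 0 ≤ Y := by linarith
  have hYL : C₁ * (CR + 1) * L ≤ Y := by
    rw [hY]
    apply Real.le_sqrt_of_sq_le
    calc (C₁ * (CR + 1) * L) ^ 2 = (C₁ * (CR + 1)) ^ 2 * L ^ 2 := by ring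
      _ ≤ C * L ^ 2 := by gcongr
      _ ≤ Z := hZC
  have hlogM : Real.log M' ≤ Real.log N := Real.log_le_log hM0 hMN
  have hlogRM : 1 + Real.log (R * M') ≤ (CR + 1) * L := by
    rw [Real.log_mul hR0.ne' hM0.ne', hlogR, hL]
    nlinarith
  -- normal denominators
  have hcond : C₁ * Y * (1 + Real.log (R * M')) * M' ≤ N := by
    have hC₁0 : 0 ≤ C₁ := by linarith
    calc C₁ * Y * (1 + Real.log (R * M')) * M' ≤ C₁ * Y * ((CR + 1) * L) * M' := by gcongr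
      _ = Y * (C₁ * (CR + 1) * L) * M' := by ring
      _ ≤ Y * Y * M' := by gcongr
      _ = N := by rw [hYY, hZM]
  have hn := h2'' N R M' Y hN hR1 hM' hY1 hcond
  have hYM : Y ^ s * M' ^ s ≤ (N : ℝ) ^ s := by
    rw [← Real.mul_rpow hY0 hM0.le]
    apply Real.rpow_le_rpow (by positivity) _ hs0
    calc Y * M' ≤ Y * Y * M' := by
          apply mul_le_mul_of_nonneg_right _ hM0.le
          nlinarith
      _ = N := by rw [hYY, hZM]
  have hNK : (0 : ℝ) < (N : ℝ) ^ (KN k) := by positivity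
  have hn' : volume.real (WQ k N R M' {q | (tau q : ℝ) ^ s₀ ≤ Y}) ≤
      C₁ * (N : ℝ) ^ (-(K - s)) := by
    have e1 : (N : ℝ) ^ (-(K - s)) = (N : ℝ) ^ s / (N : ℝ) ^ (KN k) := by
      rw [show -(K - s) = s - K by ring, Real.rpow_sub hN0, hK, Real.rpow_natCast]
    rw [e1, ← mul_div_assoc, le_div_iff₀ hNK, mul_comm]
    calc (N : ℝ) ^ (KN k) * volume.real (WQ k N R M' {q | (tau q : ℝ) ^ s₀ ≤ Y})
        ≤ C₁ * Y ^ s * M' ^ s := hn
      _ = C₁ * (Y ^ s * M' ^ s) := by ring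
      _ ≤ C₁ * (N : ℝ) ^ s := by gcongr
  -- abnormal denominators
  have hs₀' : (s₀ : ℕ) ≠ 0 := by omega
  set Y' : ℝ := Y ^ ((s₀ : ℝ)⁻¹) with hY'
  have hY'1 : 1 ≤ Y' := Real.one_le_rpow hY1 (by positivity)
  have hY'p : Y' ^ s₀ = Y := Real.rpow_inv_natCast_pow hY0 hs₀'
  have h8 : 8 * M' ≤ N := by
    rw [← hZM]
    nlinarith
  have ha := h1' N R M' Y' hN hR1 hM' hY'1 h8
  have hpow : Y' ^ (2 * s₀ * A) = Z ^ A := by
    rw [show 2 * s₀ * A = s₀ * (2 * A) by ring, pow_mul, hY'p, pow_mul, sq, hYY]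
  have hLL : (L * (1 + Real.log R)) ^ B ≤ (1 + CR) ^ B * L ^ (2 * B) := by
    rw [pow_mul, ← mul_pow]
    have hb : 0 ≤ 1 + Real.log R := by
      have := Real.log_nonneg hR1
      linarith
    apply pow_le_pow_left₀ (by positivity)
    rw [hlogR]
    have : 1 + CR * Real.log N ≤ (1 + CR) * L := by
      rw [hL]
      nlinarith
    nlinarith
  have ha' : volume.real (WQ k N R M' {q | Y' < (tau q : ℝ)}) ≤
      C₂ * (1 + CR) ^ B * (L ^ (2 * B) * (M' / N) ^ A) := by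
    have e2 : (M' / N) ^ A = 1 / Z ^ A := by
      rw [hZ, div_pow, div_pow]
      field_simp
    calc volume.real (WQ k N R M' {q | Y' < (tau q : ℝ)})
        ≤ C₂ * (L * (1 + Real.log R)) ^ B / Y' ^ (2 * s₀ * A) := ha
      _ = C₂ * (L * (1 + Real.log R)) ^ B / Z ^ A := by rw [hpow]
      _ ≤ C₂ * ((1 + CR) ^ B * L ^ (2 * B)) / Z ^ A := by gcongr
      _ = C₂ * (1 + CR) ^ B * (L ^ (2 * B) * (M' / N) ^ A) := by rw [e2]; ring
  have hun := measureReal_mono (μ := (volume : Measure (X k)))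
    (mx_cover k N s₀ R M' Y Y' (by linarith) hY'p)
  have hun2 := measureReal_union_le (μ := (volume : Measure (X k)))
    (WQ k N R M' {q | (tau q : ℝ) ^ s₀ ≤ Y}) (WQ k N R M' {q | Y' < (tau q : ℝ)})
  have hz1 : 0 ≤ (N : ℝ) ^ (-(K - s)) := by positivity
  have hz2 : 0 ≤ L ^ (2 * B) * (M' / N) ^ A := by positivity
  have hf1 : C₁ * (N : ℝ) ^ (-(K - s)) ≤ C * (N : ℝ) ^ (-(K - s)) := by
    apply mul_le_mul_of_nonneg_right _ hz1
    linarith
  have hf2 : C₂ * (1 + CR) ^ B * (L ^ (2 * B) * (M' / N) ^ A) ≤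
      C * (L ^ (2 * B) * (M' / N) ^ A) := by
    apply mul_le_mul_of_nonneg_right _ hz2
    linarith
  calc volume.real (WS k N R M') ≤ _ := hun
    _ ≤ _ := hun2
    _ ≤ C * (N : ℝ) ^ (-(K - s)) + C * (L ^ (2 * B) * (M' / N) ^ A) := by linarith
    _ = C * ((N : ℝ) ^ (-(K - s)) + L ^ (2 * B) * (M' / N) ^ A) := by ring

end Pool.Agent.H97.EN
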