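import Pool.Agent.H93.EN.Targets

/-!
EN, row POL: polar coordinates in a sector.
-/

set_option autoImplicit false

namespace Pool.Agent.H97.EN

open MeasureTheory Set Metric Filter Topology Pool.Agent.H93.BL Pool.Agent.H93.EN

theorem polT (p a : ℂ) (s θ : ℝ) :
    p + (-a) * Complex.polarCoord.symm (s, θ - Real.pi) =
      p + (s : ℂ) * (Complex.exp ((θ : ℂ) * Complex.I) * a) := by
  rw [Complex.polarCoord_symm_apply]
  have h1 : Real.cos (θ - Real.pi) = -Real.cos θ := Real.cos_sub_pi θ
  have h2 : Real.sin (θ - Real.pi) = -Real.sin θ := Real.sin_sub_pi θ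
  rw [h1, h2, Complex.exp_mul_I]
  push_cast
  ring

theorem mpT (p a : ℂ) (ha : ‖a‖ = 1) :
    MeasurePreserving (fun z : ℂ => p + (-a) * z) volume volume ∧
      MeasurableEmbedding (fun z : ℂ => p + (-a) * z) := by
  have hc : ‖-a‖ = 1 := by rw [norm_neg, ha]
  let c : Circle := ⟨-a, by rw [Submonoid.unitSphere]; exact mem_sphere_zero_iff_norm.2 hc⟩
  have h1 : MeasurePreserving (rotation c : ℂ → ℂ) volume volume :=
    LinearIsometryEquiv.measurePreserving _
  have h2 : MeasurePreserving (fun z : ℂ => p + z) volume volume := measurePreserving_add_left _ p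
  have h3 := h2.comp h1
  have h4 : (fun z : ℂ => p + z) ∘ (rotation c : ℂ → ℂ) = fun z : ℂ => p + (-a) * z := by
    funext z
    rfl
  rw [h4] at h3
  refine ⟨h3, ?_⟩
  have h5 : MeasurableEmbedding (rotation c : ℂ → ℂ) :=
    (rotation c).toHomeomorph.measurableEmbedding
  have h6 : MeasurableEmbedding (fun z : ℂ => p + z) :=
    (Homeomorph.addLeft p).measurableEmbedding
  have h7 := h6.comp h5
  rw [h4] at h7
  exact h7

theorem pol : T_POL := by
  intro p a α r₁ r₂ ha hα hα2 hr hr2 g hg
  obtain ⟨hT, hTe⟩ := mpT p a ha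
  have ha0 : a ≠ 0 := by
    intro h
    rw [h, norm_zero] at ha
    exact zero_ne_one ha
  have hpi := Real.pi_pos
  set R : Set (ℝ × ℝ) := Ioo r₁ r₂ ×ˢ Ioo (-Real.pi) (α - Real.pi) with hR
  have hRm : MeasurableSet R := measurableSet_Ioo.prod measurableSet_Ioo
  have hRt : R ⊆ Complex.polarCoord.target := by
    rintro ⟨s, φ⟩ ⟨h1, h2⟩
    rw [Complex.polarCoord_target]
    exact ⟨lt_of_le_of_lt hr h1.1, h2.1, by
      have := h2.2
      change φ < Real.pi
      change φ < α - Real.pi at this
      linarith⟩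
  set U : Set ℂ := Complex.polarCoord.symm '' R with hU
  have hUo : IsOpen U := by
    have : IsOpen R := isOpen_Ioo.prod isOpen_Ioo
    exact Complex.polarCoord.symm.isOpen_image_of_subset_source this (by
      rw [OpenPartialHomeomorph.symm_source]
      exact hRt)
  have hpre : (fun z : ℂ => p + (-a) * z) ⁻¹' {x | ∃ s ∈ Ioo r₁ r₂, ∃ θ ∈ Ioo 0 α,
      x = p + (s : ℂ) * (Complex.exp ((θ : ℂ) * Complex.I) * a)} = U := by
    ext z
    constructor
    · rintro ⟨s, hs, θ, hθ, h⟩
      refine ⟨(s, θ - Real.pi), ⟨hs, ?_, ?_⟩, ?_⟩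
      · change -Real.pi < θ - Real.pi
        linarith [hθ.1]
      · change θ - Real.pi < α - Real.pi
        linarith [hθ.2]
      · have h1 := (polT p a s θ).trans h.symm
        have h2 := mul_left_cancel₀ (neg_ne_zero.2 ha0) (add_left_cancel h1)
        exact h2
    · rintro ⟨⟨s, φ⟩, ⟨hs, hφ⟩, rfl⟩
      refine ⟨s, hs, φ + Real.pi, ⟨?_, ?_⟩, ?_⟩
      · have := hφ.1
        change -Real.pi < φ at this
        linarith
      · have := hφ.2
        change φ < α - Real.pi at this
        linarith
      · have h1 := polT p a s (φ + Real.pi)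
        rw [add_sub_cancel_right] at h1
        exact h1
  rw [← hT.setLIntegral_comp_preimage_emb hTe, hpre]
  rw [← lintegral_indicator hUo.measurableSet, ← Complex.lintegral_comp_polarCoord_symm]
  have h1 : ∫⁻ q in Complex.polarCoord.target, ENNReal.ofReal q.1 •
      U.indicator (fun z => g (p + -a * z)) (Complex.polarCoord.symm q) =
      ∫⁻ q in Complex.polarCoord.target, R.indicator (fun q => ENNReal.ofReal q.1 *
        g (p + -a * Complex.polarCoord.symm q)) q := by
    refine setLIntegral_congr_fun Complex.polarCoord.open_target.measurableSet fun q hq => ?_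
    by_cases hqR : q ∈ R
    · change ENNReal.ofReal q.1 • U.indicator (fun z => g (p + -a * z))
        (Complex.polarCoord.symm q) = _
      rw [indicator_of_mem hqR, indicator_of_mem (mem_image_of_mem _ hqR), smul_eq_mul]
    · change ENNReal.ofReal q.1 • U.indicator (fun z => g (p + -a * z))
        (Complex.polarCoord.symm q) = _
      rw [indicator_of_notMem hqR, indicator_of_notMem, smul_zero]
      rintro ⟨q', hq', h⟩
      have h2 := Complex.polarCoord.symm.injOn (by
        rw [OpenPartialHomeomorph.symm_source]; exact hRt hq') (by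
        rw [OpenPartialHomeomorph.symm_source]; exact hq) h
      rw [h2] at hq'
      exact hqR hq'
  have h2 : ∫⁻ q in Complex.polarCoord.target, R.indicator (fun q => ENNReal.ofReal q.1 *
        g (p + -a * Complex.polarCoord.symm q)) q =
      ∫⁻ q in R, ENNReal.ofReal q.1 * g (p + -a * Complex.polarCoord.symm q) := by
    rw [setLIntegral_indicator hRm, inter_eq_left.2 hRt]
  have hmeas : Measurable fun q : ℝ × ℝ => ENNReal.ofReal q.1 *
      g (p + -a * Complex.polarCoord.symm q) := by
    have h3 : Measurable fun q : ℝ × ℝ => p + -a * Complex.polarCoord.symm q := by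
      have h4 : (fun q : ℝ × ℝ => p + -a * Complex.polarCoord.symm q) =
          fun q : ℝ × ℝ => p + -a * (q.1 * (Real.cos q.2 + Real.sin q.2 * Complex.I)) := by
        funext q
        rw [Complex.polarCoord_symm_apply]
      rw [h4]
      have : Continuous fun q : ℝ × ℝ =>
          p + -a * ((q.1 : ℂ) * ((Real.cos q.2 : ℂ) + (Real.sin q.2 : ℂ) * Complex.I)) := by
        fun_prop
      exact this.measurable
    exact (ENNReal.measurable_ofReal.comp measurable_fst).mul (hg.comp h3)
  have h3 : ∫⁻ q in R, ENNReal.ofReal q.1 * g (p + -a * Complex.polarCoord.symm q) =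
      ∫⁻ s in Ioo r₁ r₂, ∫⁻ φ in Ioo (-Real.pi) (α - Real.pi),
        ENNReal.ofReal s * g (p + -a * Complex.polarCoord.symm (s, φ)) := by
    rw [hR, Measure.volume_eq_prod, ← Measure.prod_restrict,
      lintegral_prod _ hmeas.aemeasurable]
  refine h1.trans (h2.trans (h3.trans ?_))
  refine lintegral_congr fun s => ?_
  have hsh : MeasurePreserving (fun φ : ℝ => φ + Real.pi) volume volume :=
    measurePreserving_add_right _ _
  have hshe : MeasurableEmbedding (fun φ : ℝ => φ + Real.pi) :=
    (Homeomorph.addRight Real.pi).measurableEmbedding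
  rw [← hsh.setLIntegral_comp_preimage_emb hshe
    (fun θ => g (p + (s : ℂ) * (Complex.exp ((θ : ℂ) * Complex.I) * a)) * ENNReal.ofReal s)
    (Ioo 0 α)]
  have h4 : (fun φ : ℝ => φ + Real.pi) ⁻¹' Ioo 0 α = Ioo (-Real.pi) (α - Real.pi) := by
    ext φ
    simp only [mem_preimage, mem_Ioo]
    constructor
    · rintro ⟨h, h'⟩
      constructor <;> linarith
    · rintro ⟨h, h'⟩
      constructor <;> linarith
  rw [h4]
  refine lintegral_congr fun φ => ?_
  have h5 := polT p a s (φ + Real.pi)
  rw [add_sub_cancel_right] at h5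
  rw [← h5, mul_comm]

end Pool.Agent.H97.EN
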